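import Mathlib
import Pool.Agent.H59.RP4

set_option autoImplicit false
open Finset

namespace Pool.Agent.Results.MP_eac634_nt.LogBound

open Pool.Agent.H59.SN

theorem result : ∃ C : ℝ, 0 < C ∧ ∀ b : ℕ, 2 ≤ b → ∃ K : ℕ, 2 ≤ K ∧ (K : ℝ) ≤ C * Real.log b ∧
    ∃ N0 : ℕ, ∀ N : ℕ, N0 ≤ N → ∃ l : List ℕ, l.length ≤ K ∧ (∀ p ∈ l, p.Prime) ∧
      (l.map fun p => Nat.ofDigits b (Nat.digits b p).reverse).sum = N := by
  obtain ⟨K1, K0, hd⟩ := dens2
  obtain ⟨K3, hq⟩ := qex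
  obtain ⟨K4, hK⟩ : ∃ K4, K4 = (2 * K1 + 29) * (16 * K3 + 20) + 24 * K1 + 2 := ⟨_, rfl⟩
  refine ⟨4 * K4, by rw [hK]; positivity, fun b hb => ?_⟩
  set Q : ℕ → ℕ → Prop := fun K N => ∃ l : List ℕ, l.length ≤ K ∧
    (∀ p ∈ l, p.Prime) ∧ (l.map fun p => Nat.ofDigits b (Nat.digits b p).reverse).sum = N with hQ
  have Q1 : ∀ {K L M N : ℕ}, Q K M → Q L N → Q (K + L) (M + N) := by
    rintro K L _ _ ⟨l, l1, l2, rfl⟩ ⟨k, k1, k2, rfl⟩
    exact ⟨l ++ k, by rw [List.length_append]; omega, fun p hp => (List.mem_append.1 hp).elim (l2 p) (k2 p),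
      by simp⟩
  have Q2 : ∀ {K L N : ℕ}, K ≤ L → Q K N → Q L N := fun h ⟨l, l1, l2⟩ => ⟨l, l1.trans h, l2⟩
  have Q3 : ∀ p : ℕ, p.Prime → Q 1 (Nat.ofDigits b (Nat.digits b p).reverse) := fun p hp =>
    ⟨[p], le_rfl, by simpa, by simp⟩
  have Q4 : Q 2 2 ∧ Q 3 3 := by
    have a2 := Q3 2 Nat.prime_two
    have a3 := Q3 3 Nat.prime_three
    by_cases h : b < 4
    · have : Q 1 1 := by
        obtain rfl | rfl : b = 2 ∨ b = 3 := by omega
        · simpa [Nat.ofDigits] using a2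
        · simpa [Nat.ofDigits] using a3
      exact ⟨Q1 this this, Q1 (Q1 this this) this⟩
    · rw [Nat.digits_of_lt b _ (by omega) (by omega), List.reverse_singleton, Nat.ofDigits_singleton] at a2 a3
      exact ⟨Q2 (by omega) a2, Q2 (by omega) a3⟩
  have Q5 : ∀ i, Q (i + 2) (i + 2) := fun i => by
    induction i using Nat.twoStepInduction with
    | zero => exact Q4.1
    | one => exact Q4.2
    | more i h _ => exact Q1 h Q4.1
  have Q0 : ∀ K, Q K 0 := fun K => ⟨[], K.zero_le, by simp, rfl⟩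
  have Q6 : ∀ p q : ℕ, p.Prime → q.Prime → Q 2 _ := fun p q hp hq => Q1 (Q3 p hp) (Q3 q hq)
  obtain ⟨l0, hr⟩ := rev_ex hb
  replace hr : ∀ l, l0 ≤ l → ∀ d < b, d.Coprime b → ∃ r, Q 1 r ∧ d * b ^ l ≤ r ∧ r < (d + 1) * b ^ l :=
    fun l hl d d1 d2 => let ⟨p, p1, p2⟩ := hr l hl d d1 d2; ⟨_, Q3 p p1, p2⟩
  obtain ⟨g, g1, g2, g3⟩ : ∃ g, 1 ≤ g ∧ 2 ^ g ≤ b ∧ b < 2 ^ (g + 1) :=
    ⟨Nat.log 2 b, Nat.log_pos one_lt_two hb, Nat.pow_log_le_self 2 (by omega),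
      Nat.lt_pow_succ_log_self one_lt_two b⟩
  obtain ⟨j0, hd⟩ := hd b _ hb g3
  refine ⟨K4 * (g + 1), by rw [hK]; nlinarith [Nat.zero_le ((2 * K1 + 29) * (16 * K3 + 20))], ?_,
    b ^ (K1 + 6) * (b ^ 17) ^ (j0 + l0 + K1 + 6), fun N hN => ?_⟩
  · have a1 : (g : ℝ) * Real.log 2 ≤ Real.log b := by
      rw [← Real.log_pow]; exact Real.log_le_log (by positivity) (by exact_mod_cast g2)
    have a2 : (1 : ℝ) ≤ g := by exact_mod_cast g1
    push_cast
    rw [mul_comm 4, mul_assoc]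
    exact mul_le_mul_of_nonneg_left (by nlinarith [Real.log_two_gt_d9]) (by positivity)
  change Q _ _
  clear_value Q
  have one : ∀ l, l0 ≤ l → ∀ T, T < 2 * b ^ (l + 1) →
      ∃ S, Q (6 * (g + 2) + (8 * (K3 * (g + 2)) + 8)) S ∧ S ≤ T ∧ T < S + 2 * b ^ l := fun l hl T hT => by
    have U0 : 0 < b ^ l := by positivity
    have h := hr l hl
    rw [pow_succ] at hT
    generalize b ^ l = U at *
    obtain ⟨S, S1, S2, S3⟩ := gre Q Q0 Q1 (fun n T => T < 2 * (U * b) ∧ 7 ^ n * T ≤ 8 ^ n * U) 1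
      ((8 * (K3 * (g + 2)) + 8) * U) (fun T h => by nlinarith [h.2, Nat.zero_le (K3 * (g + 2) * U)])
      (fun n T h1 h2 => by
        have t1 := (Nat.le_div_iff_mul_le U0).2 h2
        have t2 := (Nat.div_lt_iff_lt_mul U0).2 (show T < 2 * b * U by linarith [h1.1])
        have t3 := Nat.div_mul_le_self T U
        have t4 := Nat.lt_mul_div_succ T U0
        generalize T / U = t at *
        obtain ⟨q, -, q1, q2, q3⟩ := hq b (g + 1) (t / 8) (by omega) g3 (show K3 * (g + 2) ≤ _ by omega)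
        obtain ⟨r, r1, r2, r3⟩ := h q (by omega) q3
        have a1 : r ≤ T := by nlinarith [Nat.mul_le_mul_right U (show q + 1 ≤ t by omega)]
        have a2 : T ≤ 8 * r := by nlinarith [Nat.mul_le_mul_right U (show t + 1 ≤ 8 * q by omega)]
        refine ⟨r, r1, a1, by omega, ?_⟩
        nlinarith [h1.2, Nat.mul_le_mul_left (7 ^ n) (show 8 * (T - r) ≤ 7 * T by omega), pow_succ 7 n,
          pow_succ 8 n]) (6 * (g + 2)) T ⟨hT, by
        rw [pow_mul, pow_mul]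
        calc _ ≤ (7 ^ 6) ^ (g + 2) * (2 ^ (g + 2) * U) := Nat.mul_le_mul_left _ (by
              rw [pow_succ]; nlinarith [Nat.mul_le_mul_left U g3.le])
          _ = (7 ^ 6 * 2) ^ (g + 2) * U := by rw [mul_pow, mul_assoc]
          _ ≤ _ := Nat.mul_le_mul_right _ (Nat.pow_le_pow_left (by norm_num) _)⟩
    obtain ⟨R, R1, R2, R3⟩ := gre Q Q0 Q1 (fun n T => T ≤ n * U) 1 (2 * U) (fun T h => by omega)
      (fun n T h1 h2 => by
        obtain ⟨r, r1, r2, r3⟩ := h 1 hb (Nat.coprime_one_left b)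
        rw [Nat.succ_mul] at h1
        exact ⟨r, r1, by omega, by omega⟩) (8 * (K3 * (g + 2)) + 8) (T - S) (by omega)
    rw [mul_one] at S1 R1
    exact ⟨S + R, Q1 S1 R1, by omega, by omega⟩
  have b1 : 1 < b ^ 17 := Nat.one_lt_pow (by omega) hb
  have V0 : 0 < b ^ (K1 + 6) := by positivity
  have n1 := (Nat.le_div_iff_mul_le V0).2 ((mul_comm _ _).trans_le hN)
  have n2 := Nat.le_log_of_pow_le b1 n1
  have n3 := (Nat.le_div_iff_mul_le V0).1 (Nat.pow_log_le_self (b ^ 17) ((pow_pos (by omega) _).trans_le n1).ne')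
  have n4 := (Nat.div_lt_iff_lt_mul V0).1 (Nat.lt_pow_succ_log_self b1 (N / b ^ (K1 + 6)))
  generalize (b ^ 17).log (N / b ^ (K1 + 6)) = j at *
  obtain ⟨B, B1, B2⟩ := hd j (by omega)
  obtain ⟨l, hl⟩ : ∃ l, 17 * j = l + (K1 + 6) := ⟨17 * j - (K1 + 6), by omega⟩
  obtain ⟨k, hk⟩ : ∃ k, k = 4 * (K1 * (g + 1)) := ⟨_, rfl⟩
  have k0 : 0 < k := by rw [hk]; positivity
  have k1 : 4 * k + 2 ≤ b ^ (K1 + 6) := by
    have a1 := Nat.mul_le_mul (Nat.lt_two_pow_self (n := K1)).le ((Nat.lt_two_pow_self (n := g)).trans_le g2)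
    have a2 := Nat.mul_le_mul_right b (Nat.pow_le_pow_left hb (K1 + 5))
    have a3 : 0 < 2 ^ K1 * b := by positivity
    rw [← pow_succ, pow_add] at a2
    rw [hk]; simp only [Nat.succ_eq_add_one] at a1; nlinarith
  rw [← pow_mul] at n3
  obtain ⟨x, Y, x1, x2, x3⟩ := loc B (by positivity) k0 (fun x hx => (B1 x hx).1) (by rw [hk]; linarith)
  have B3 : ∀ x ∈ B, Q 2 x := fun x hx => by
    obtain ⟨-, p, q, hp, hq, rfl⟩ := B1 x hx
    exact Q6 p q hp hq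
  have X0 : 0 < b ^ (17 * j) := by positivity
  have x4 : 2 * (k * x) + 2 ≤ N := by
    nlinarith [Nat.mul_le_mul_left k (B1 x x1).1.le, Nat.mul_le_mul_left (b ^ (17 * j)) k1]
  have x5 : 2 * b ^ l ≤ Y := Nat.le_of_mul_le_mul_left (le_trans (by
    rw [hl, pow_add]; nlinarith [Nat.mul_le_mul_left (b ^ l) k1, Nat.zero_le (b ^ l * k)]) x2) k0
  obtain ⟨T, T1, T2, T3⟩ := gre Q Q0 Q1 (fun n T => T < 2 * b ^ (l + n)) _ (2 * b ^ l) (fun T h => h)
    (fun n T h1 _ => by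
      obtain ⟨S, S1, S2, S3⟩ := one (l + n) (by omega) T h1
      exact ⟨S, S1, S2, by omega⟩) (2 * K1 + 29) (N - 2 - 2 * (k * x)) (by
      rw [← pow_mul, ← pow_add, show 17 * j.succ + (K1 + 6) = l + (2 * K1 + 29) by omega] at n4
      omega)
  set S : ℕ → Set ℕ := fun n => {z | Y < z ∨ ∃ i ≤ n, ∃ M, Q (2 * n) M ∧ M + i = z + n * x} with hS
  have S0 : ∀ n, 0 ∈ S n := fun n => Or.inr ⟨0, n.zero_le, n * x, by
    induction n with
    | zero => simpa using Q0 0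
    | succ n ih => rw [Nat.succ_mul n x]; exact Q1 ih (B3 x x1), by simp⟩
  obtain ⟨u, u1, v, v1, e⟩ := schn2 (S0 1) (sub_nonneg.2 ((div_le_one (by positivity)).2
    (by exact_mod_cast k0))) (x3 (S 1) (fun z h => Or.inl h) fun z h =>
      Or.inr ⟨1, le_rfl, x + z, B3 _ h, by ring⟩) S S0 (by
      rintro n y (h | ⟨i, i1, M, M1, e⟩) a (h' | ⟨i', i2, M', M2, e'⟩)
      · exact Or.inl (by omega)
      · exact Or.inl (by omega)
      · exact Or.inl (by omega)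
      · exact Or.inr ⟨i + i', by omega, M + M', Q1 M1 M2, by rw [Nat.succ_mul]; omega⟩)
    (half k0) (N - 2 - 2 * (k * x) - T)
  obtain ⟨i, i1, M, M1, e1⟩ := u1.resolve_left (by omega)
  obtain ⟨i', i2, M', M2, e2⟩ := v1.resolve_left (by omega)
  refine (show T + (M + M') + (i + i' + 2) = N by omega) ▸ Q2 ?_ (Q1 (Q1 T1 (Q1 M1 M2)) (Q5 (i + i')))
  have := Nat.mul_le_mul_left (2 * K1 + 29) (show 6 * (g + 2) + (8 * (K3 * (g + 2)) + 8) ≤
    (16 * K3 + 20) * (g + 1) by nlinarith [Nat.zero_le (K3 * g)])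
  rw [hK]; nlinarith

end Pool.Agent.Results.MP_eac634_nt.LogBound
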